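import Pool.Agent.Q248.MN.Defs

/-!
# The Sidon defect of the set of multinomial coefficients has the order of `M(n)`
-/

namespace Pool.Agent.Results.MP_0896da_co.OrderOfM

open Finset Pool.Agent.Q248.MN

/-- `S` is a Sidon set: `x + y = u + v` with `x, y, u, v ∈ S` forces `{x, y} = {u, v}`. -/
def IsSidon (S : Finset ℕ) : Prop :=
  ∀ x ∈ S, ∀ y ∈ S, ∀ u ∈ S, ∀ v ∈ S, x + y = u + v → (x = u ∧ y = v) ∨ (x = v ∧ y = u)

/-- `s(n)`: the largest size of a Sidon subset of `𝓜_n`. -/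
noncomputable def ss (n : ℕ) : ℕ := sSup {k : ℕ | ∃ S ⊆ MM n, IsSidon S ∧ S.card = k}

theorem defect {n : ℕ} {S : Finset ℕ} (hS : S ⊆ MM (n + 5)) (hsid : IsSidon S) :
    (WW n).card ≤ 3 * (MM (n + 5) \ S).card := by
  classical
  have h : ∀ P : ℕ, ∃ y i : ℕ, P ∈ WW n → y * (12 * P) = (n + 5).factorial ∧ 0 < y ∧ i < 3 ∧
      (i + 1) * y ∈ MM (n + 5) \ S := by
    intro P
    by_cases hP : P ∈ WW n
    · obtain ⟨y, h1, h2, h3, h4⟩ := triple hP
      have hy := pos_of_mem_MM h2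
      by_cases c1 : y ∈ S
      · by_cases c2 : 2 * y ∈ S
        · by_cases c3 : 3 * y ∈ S
          · exfalso
            have := hsid y c1 (3 * y) c3 (2 * y) c2 (2 * y) c2 (by ring)
            omega
          · exact ⟨y, 2, fun _ => ⟨h1, hy, by norm_num, mem_sdiff.2 ⟨h4, c3⟩⟩⟩
        · exact ⟨y, 1, fun _ => ⟨h1, hy, by norm_num, mem_sdiff.2 ⟨h3, c2⟩⟩⟩
      · refine ⟨y, 0, fun _ => ⟨h1, hy, by norm_num, ?_⟩⟩
        rw [zero_add, one_mul]
        exact mem_sdiff.2 ⟨h2, c1⟩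
    · exact ⟨0, 0, fun h => absurd h hP⟩
  choose y i hyi using h
  have h3 : 3 * (MM (n + 5) \ S).card = ((range 3) ×ˢ (MM (n + 5) \ S)).card := by
    rw [card_product, card_range]
  rw [h3]
  apply card_le_card_of_injOn (fun P => (i P, (i P + 1) * y P))
  · intro P hP
    obtain ⟨_, _, h4, h5⟩ := hyi P hP
    rw [mem_coe, mem_product, mem_range]
    exact ⟨h4, h5⟩
  · intro P hP Q hQ he
    obtain ⟨h1, h2, _, _⟩ := hyi P hP
    obtain ⟨h1', h2', _, _⟩ := hyi Q hQ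
    obtain ⟨e1, e2⟩ := Prod.mk.inj he
    rw [e1] at e2
    have e3 : y P = y Q := Nat.eq_of_mul_eq_mul_left (by omega) e2
    rw [e3, ← h1'] at h1
    have := Nat.eq_of_mul_eq_mul_left h2' h1
    omega

/-- For all `n ≥ 5`, `M(n) / 96 ≤ M(n) - s(n) ≤ M(n)`; so `M(n) - s(n) = Θ(M(n))`. -/
theorem result (n : ℕ) (hn : 5 ≤ n) :
    (1 / 96 : ℝ) * ((MM n).card : ℝ) ≤ ((MM n).card : ℝ) - (ss n : ℝ) ∧
    ((MM n).card : ℝ) - (ss n : ℝ) ≤ ((MM n).card : ℝ) := by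
  obtain ⟨m, rfl⟩ : ∃ m, n = m + 5 := ⟨n - 5, by omega⟩
  have hbdd : BddAbove {k : ℕ | ∃ S ⊆ MM (m + 5), IsSidon S ∧ S.card = k} := by
    refine ⟨(MM (m + 5)).card, ?_⟩
    rintro k ⟨S, hS, _, rfl⟩
    exact card_le_card hS
  have hne : {k : ℕ | ∃ S ⊆ MM (m + 5), IsSidon S ∧ S.card = k}.Nonempty :=
    ⟨0, ∅, empty_subset _, fun x hx => absurd hx (notMem_empty _), card_empty⟩
  obtain ⟨S, hS, hsid, hc⟩ := Nat.sSup_mem hne hbdd
  have hc' : S.card = ss (m + 5) := hc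
  have h1 := defect hS hsid
  have h2 := card_sdiff_add_card_eq_card hS
  have h3 : (MM (m + 5)).card ≤ 32 * (MM m).card := by
    have a1 := card_MM_succ_le m
    have a2 := card_MM_succ_le (m + 1)
    have a3 := card_MM_succ_le (m + 2)
    have a4 := card_MM_succ_le (m + 3)
    have a5 := card_MM_succ_le (m + 4)
    simp only [add_assoc, Nat.reduceAdd] at a1 a2 a3 a4 a5
    omega
  rw [card_MM m] at h3
  have h4 : (MM (m + 5)).card + 96 * ss (m + 5) ≤ 96 * (MM (m + 5)).card := by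
    rw [← hc']
    omega
  have h5 : ((MM (m + 5)).card : ℝ) + 96 * (ss (m + 5) : ℝ) ≤ 96 * ((MM (m + 5)).card : ℝ) := by
    exact_mod_cast h4
  constructor
  · linarith
  · have : (0 : ℝ) ≤ (ss (m + 5) : ℝ) := Nat.cast_nonneg _
    linarith

end Pool.Agent.Results.MP_0896da_co.OrderOfM
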